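import Mathlib

namespace Pool.Agent.Results.MP_5207c4_ag.Wells

open Polynomial

/-- the monic polynomial with lower coefficients `a` -/
noncomputable def Q {d : ℕ} (a : Fin d → ℝ) : ℝ[X] := X ^ d + ∑ j, C (a j) * X ^ (j : ℕ)

/-- the set `R_{4,d}(τ)` -/
def R4 (d : ℕ) (τ : Fin d → ℕ × ℕ) : Set (Fin d → ℝ) :=
  {a | (∀ j, a j ≠ 0) ∧ ∀ l : Fin d,
    (∀ x, (derivative^[l] (Q a)).IsRoot x →
      x ≠ 0 ∧ ¬ (derivative (derivative^[l] (Q a))).IsRoot x) ∧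
    {x | 0 < x ∧ (derivative^[l] (Q a)).IsRoot x}.ncard = (τ l).1 ∧
    {x | x < 0 ∧ (derivative^[l] (Q a)).IsRoot x}.ncard = (τ l).2}

theorem d0 (a : Fin 4 → ℝ) : Q a =
    X ^ 4 + C (a 3) * X ^ 3 + C (a 2) * X ^ 2 + C (a 1) * X + C (a 0) := by
  simp [Q, Fin.sum_univ_four]
  ring

theorem d1 (a : Fin 4 → ℝ) : derivative (Q a) =
    C 4 * X ^ 3 + C (3 * a 3) * X ^ 2 + C (2 * a 2) * X + C (a 1) := by
  rw [d0]
  simp [map_ofNat]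
  ring

theorem d2 (a : Fin 4 → ℝ) : derivative (derivative (Q a)) =
    C 12 * X ^ 2 + C (6 * a 3) * X + C (2 * a 2) := by
  rw [d1]
  simp [map_ofNat]
  ring

theorem d3 (a : Fin 4 → ℝ) : derivative (derivative (derivative (Q a))) =
    C 24 * X + C (6 * a 3) := by
  rw [d2]
  simp [map_ofNat]
  ring

theorem d4 (a : Fin 4 → ℝ) : derivative (derivative (derivative (derivative (Q a)))) = C 24 := by
  rw [d3]
  simp

theorem mem_iff (a : Fin 4 → ℝ) : a ∈ R4 4 ![(2, 0), (3, 0), (2, 0), (1, 0)] ↔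
    (a 0 ≠ 0 ∧ a 1 ≠ 0 ∧ a 2 ≠ 0 ∧ a 3 ≠ 0) ∧
    ((∀ x, x ^ 4 + a 3 * x ^ 3 + a 2 * x ^ 2 + a 1 * x + a 0 = 0 →
      x ≠ 0 ∧ 4 * x ^ 3 + 3 * a 3 * x ^ 2 + 2 * a 2 * x + a 1 ≠ 0) ∧
    {x | 0 < x ∧ x ^ 4 + a 3 * x ^ 3 + a 2 * x ^ 2 + a 1 * x + a 0 = 0}.ncard = 2 ∧
    {x | x < 0 ∧ x ^ 4 + a 3 * x ^ 3 + a 2 * x ^ 2 + a 1 * x + a 0 = 0}.ncard = 0) ∧
    ((∀ x, 4 * x ^ 3 + 3 * a 3 * x ^ 2 + 2 * a 2 * x + a 1 = 0 →
      x ≠ 0 ∧ 12 * x ^ 2 + 6 * a 3 * x + 2 * a 2 ≠ 0) ∧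
    {x | 0 < x ∧ 4 * x ^ 3 + 3 * a 3 * x ^ 2 + 2 * a 2 * x + a 1 = 0}.ncard = 3 ∧
    {x | x < 0 ∧ 4 * x ^ 3 + 3 * a 3 * x ^ 2 + 2 * a 2 * x + a 1 = 0}.ncard = 0) ∧
    ((∀ x, 12 * x ^ 2 + 6 * a 3 * x + 2 * a 2 = 0 → x ≠ 0 ∧ 24 * x + 6 * a 3 ≠ 0) ∧
    {x | 0 < x ∧ 12 * x ^ 2 + 6 * a 3 * x + 2 * a 2 = 0}.ncard = 2 ∧
    {x | x < 0 ∧ 12 * x ^ 2 + 6 * a 3 * x + 2 * a 2 = 0}.ncard = 0) ∧
    ((∀ x, 24 * x + 6 * a 3 = 0 → x ≠ 0) ∧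
    {x | 0 < x ∧ 24 * x + 6 * a 3 = 0}.ncard = 1 ∧
    {x | x < 0 ∧ 24 * x + 6 * a 3 = 0}.ncard = 0) := by
  have e0 : derivative^[((0 : Fin 4) : ℕ)] (Q a) = Q a := rfl
  have e1 : derivative^[((1 : Fin 4) : ℕ)] (Q a) = derivative (Q a) := rfl
  have e2 : derivative^[((2 : Fin 4) : ℕ)] (Q a) = derivative (derivative (Q a)) := rfl
  have e3 : derivative^[((3 : Fin 4) : ℕ)] (Q a) =
    derivative (derivative (derivative (Q a))) := rfl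
  have f4 : ∀ P : Fin 4 → Prop, (∀ i, P i) ↔ P 0 ∧ P 1 ∧ P 2 ∧ P 3 := by
    intro P
    simp only [Fin.forall_fin_succ, IsEmpty.forall_iff, and_true]
    rfl
  rw [R4, Set.mem_ofPred_eq, f4, f4, e0, e1, e2, e3, d4, d3, d2, d1, d0]
  simp only [IsRoot.def, eval_add, eval_mul, eval_pow, eval_X, eval_C]
  have h : ¬ (24 : ℝ) = 0 := by norm_num
  simp only [h, not_false_eq_true, and_true]
  rfl

theorem three_roots (σ q r : ℝ) (hσ : 0 < σ) (hq0 : 0 ≤ q) (hq : q < 8 * σ ^ 3)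
    (hG : r - 5 * σ ^ 4 + q * σ = 0) :
    ∃ u v w : ℝ, u ≠ v ∧ u ≠ w ∧ v ≠ w ∧ u ^ 4 - 6 * σ ^ 2 * u ^ 2 + q * u + r = 0 ∧
      v ^ 4 - 6 * σ ^ 2 * v ^ 2 + q * v + r = 0 ∧ w ^ 4 - 6 * σ ^ 2 * w ^ 2 + q * w + r = 0 := by
  obtain ⟨H, hH⟩ : ∃ H : ℝ → ℝ, H = fun y => y ^ 3 + σ * y ^ 2 - 5 * σ ^ 2 * y - 5 * σ ^ 3 + q :=
    ⟨_, rfl⟩
  have hc : Continuous H := by rw [hH]; fun_prop
  have h3 : 0 < σ ^ 3 := pow_pos hσ 3
  obtain ⟨u, hu, hu0⟩ := intermediate_value_Icc (a := -3 * σ) (b := -σ) (by linarith)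
    hc.continuousOn (show (0 : ℝ) ∈ _ from
      ⟨by rw [hH]; simp only; nlinarith, by rw [hH]; simp only; nlinarith⟩)
  obtain ⟨w, hw, hw0⟩ := intermediate_value_Icc (a := σ) (b := 3 * σ) (by linarith)
    hc.continuousOn (show (0 : ℝ) ∈ _ from
      ⟨by rw [hH]; simp only; nlinarith, by rw [hH]; simp only; nlinarith⟩)
  rw [hH] at hu0 hw0
  simp only at hu0 hw0
  refine ⟨u, σ, w, by linarith [hu.2] , by linarith [hu.2, hw.1], ?_, ?_, ?_, ?_⟩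
  · rintro rfl
    nlinarith
  · linear_combination (u - σ) * hu0 + hG
  · linear_combination hG
  · linear_combination (w - σ) * hw0 + hG

theorem three_roots' (σ q r : ℝ) (hσ : 0 < σ) (hq : |q| < 8 * σ ^ 3)
    (hG : r - 5 * σ ^ 4 + |q| * σ = 0) :
    ∃ u v w : ℝ, u ≠ v ∧ u ≠ w ∧ v ≠ w ∧ u ^ 4 - 6 * σ ^ 2 * u ^ 2 + q * u + r = 0 ∧
      v ^ 4 - 6 * σ ^ 2 * v ^ 2 + q * v + r = 0 ∧ w ^ 4 - 6 * σ ^ 2 * w ^ 2 + q * w + r = 0 := by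
  obtain ⟨u, v, w, h1, h2, h3, h4, h5, h6⟩ := three_roots σ |q| r hσ (abs_nonneg q) hq hG
  rcases abs_choice q with h | h
  · rw [h] at h4 h5 h6
    exact ⟨u, v, w, h1, h2, h3, h4, h5, h6⟩
  · rw [h] at h4 h5 h6
    exact ⟨-u, -v, -w, by simpa using h1, by simpa using h2, by simpa using h3,
      by linear_combination h4, by linear_combination h5, by linear_combination h6⟩

/-- the larger of the two values of the quartic at its inflection points -/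
noncomputable def G (a : Fin 4 → ℝ) : ℝ :=
  ((-a 3 / 4) ^ 4 + a 3 * (-a 3 / 4) ^ 3 + a 2 * (-a 3 / 4) ^ 2 + a 1 * (-a 3 / 4) + a 0)
    - 5 * √((a 3) ^ 2 / 16 - a 2 / 6) ^ 4
    + |4 * (-a 3 / 4) ^ 3 + 3 * a 3 * (-a 3 / 4) ^ 2 + 2 * a 2 * (-a 3 / 4) + a 1| *
      √((a 3) ^ 2 / 16 - a 2 / 6)

theorem G_ne (a : Fin 4 → ℝ) (ha : a ∈ R4 4 ![(2, 0), (3, 0), (2, 0), (1, 0)]) : G a ≠ 0 := by
  intro hG
  have hfin : {x : ℝ | x ^ 4 + a 3 * x ^ 3 + a 2 * x ^ 2 + a 1 * x + a 0 = 0}.Finite := by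
    have h1 : Q a ≠ 0 := by
      intro h
      have h2 := congrArg (eval 0) h
      rw [d0] at h2
      simp at h2
      exact ha.1 0 h2
    have h2 := finite_setOfPred_isRoot h1
    rw [d0] at h2
    simpa using h2
  rw [mem_iff] at ha
  obtain ⟨-, ⟨h0, hp, hn⟩, ⟨-, h3, -⟩, -, -⟩ := ha
  obtain ⟨x, y, z, hxy, hxz, hyz, hs⟩ := Set.ncard_eq_three.1 h3
  have hx : x ∈ ({x, y, z} : Set ℝ) := by simp
  have hy : y ∈ ({x, y, z} : Set ℝ) := by simp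
  have hz : z ∈ ({x, y, z} : Set ℝ) := by simp
  rw [← hs] at hx hy hz
  replace hx := hx.2
  replace hy := hy.2
  replace hz := hz.2
  have v1 : 4 * (x ^ 2 + x * y + y ^ 2) + 3 * a 3 * (x + y) + 2 * a 2 = 0 :=
    mul_left_cancel₀ (sub_ne_zero.2 hxy) (by linear_combination hx - hy)
  have v2 : 4 * (x ^ 2 + x * z + z ^ 2) + 3 * a 3 * (x + z) + 2 * a 2 = 0 :=
    mul_left_cancel₀ (sub_ne_zero.2 hxz) (by linear_combination hx - hz)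
  have v3 : a 3 = -4 / 3 * (x + y + z) :=
    mul_left_cancel₀ (sub_ne_zero.2 hyz) (by linear_combination (v1 - v2) / 3)
  have v4 : a 2 = 2 * (x * y + y * z + z * x) := by
    rw [v3] at v1
    linear_combination v1 / 2
  have v5 : a 1 = -4 * (x * y * z) := by
    rw [v3, v4] at hx
    linear_combination hx
  obtain ⟨D, hD⟩ : ∃ D : ℝ, D = (a 3) ^ 2 / 16 - a 2 / 6 := ⟨_, rfl⟩
  obtain ⟨m, hm⟩ : ∃ m : ℝ, m = -a 3 / 4 := ⟨_, rfl⟩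
  obtain ⟨q, hq⟩ : ∃ q : ℝ, q = 4 * m ^ 3 + 3 * a 3 * m ^ 2 + 2 * a 2 * m + a 1 := ⟨_, rfl⟩
  obtain ⟨r, hr⟩ : ∃ r : ℝ, r = m ^ 4 + a 3 * m ^ 3 + a 2 * m ^ 2 + a 1 * m + a 0 := ⟨_, rfl⟩
  rw [G, ← hD, ← hm, ← hq, ← hr] at hG
  have hD0 : 0 < D := by
    have h1 : D = ((x - y) ^ 2 + (y - z) ^ 2 + (z - x) ^ 2) / 18 := by
      rw [hD, v3, v4]; ring
    have h2 := sq_pos_of_ne_zero (sub_ne_zero.2 hxy)
    rw [h1]
    positivity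
  have hσ : 0 < √D := Real.sqrt_pos.2 hD0
  have hσ2 : √D ^ 2 = D := Real.sq_sqrt hD0.le
  have hq8 : |q| < 8 * √D ^ 3 := by
    apply abs_lt_of_sq_lt_sq _ (by positivity)
    have h1 : (8 * √D ^ 3) ^ 2 = 64 * D ^ 3 := by
      rw [← hσ2, Real.sqrt_sq hσ.le]; ring
    have h2 : 64 * D ^ 3 - q ^ 2 = 16 / 27 * ((x - y) * (x - z) * (y - z)) ^ 2 := by
      rw [hD, hq, hm, v3, v4, v5]; ring
    have h4 := sq_pos_of_ne_zero (mul_ne_zero (mul_ne_zero (sub_ne_zero.2 hxy)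
      (sub_ne_zero.2 hxz)) (sub_ne_zero.2 hyz))
    rw [h1]
    linarith
  obtain ⟨u, v, w, h1, h2, h4, hu, hv, hw⟩ := three_roots' (√D) q r hσ hq8 hG
  rw [hσ2] at hu hv hw
  have hneg : {x | x < 0 ∧ x ^ 4 + a 3 * x ^ 3 + a 2 * x ^ 2 + a 1 * x + a 0 = 0} = ∅ :=
    (Set.ncard_eq_zero (hfin.subset fun x hx => hx.2)).1 hn
  have key : ∀ t, t ^ 4 - 6 * D * t ^ 2 + q * t + r = 0 → m + t ∈
      {x | 0 < x ∧ x ^ 4 + a 3 * x ^ 3 + a 2 * x ^ 2 + a 1 * x + a 0 = 0} := by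
    intro t ht
    have h5 : (m + t) ^ 4 + a 3 * (m + t) ^ 3 + a 2 * (m + t) ^ 2 + a 1 * (m + t) + a 0 = 0 := by
      rw [← ht, hq, hr, hD, hm]; ring
    refine ⟨lt_of_le_of_ne (not_lt.1 fun h6 => ?_) (h0 _ h5).1.symm, h5⟩
    have h7 : m + t ∈ (∅ : Set ℝ) := by rw [← hneg]; exact ⟨h6, h5⟩
    exact h7
  have h5 := Set.ncard_le_ncard (s := {m + u, m + v, m + w})
    (t := {x | 0 < x ∧ x ^ 4 + a 3 * x ^ 3 + a 2 * x ^ 2 + a 1 * x + a 0 = 0}) (by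
    rintro _ (rfl | rfl | rfl)
    exacts [key _ hu, key _ hv, key _ hw]) (hfin.subset fun x hx => hx.2)
  rw [hp, Set.ncard_eq_three.2 ⟨_, _, _, by simpa using h1, by simpa using h2,
    by simpa using h4, rfl⟩] at h5
  omega

theorem quad (m D : ℝ) (hD : 0 < D) (hm : 0 < m) (h : D < m ^ 2) :
    {x : ℝ | 0 < x ∧ (x - m) ^ 2 = D}.ncard = 2 ∧ {x : ℝ | x < 0 ∧ (x - m) ^ 2 = D}.ncard = 0 := by
  have h1 : 0 < √D := Real.sqrt_pos.2 hD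
  have h2 : √D ^ 2 = D := Real.sq_sqrt hD.le
  have h3 : √D < m := Real.sqrt_lt' hm |>.2 h
  constructor
  · refine Set.ncard_eq_two.2 ⟨m - √D, m + √D, by linarith, ?_⟩
    ext x
    constructor
    · rintro ⟨-, hx⟩
      rcases sq_eq_sq_iff_eq_or_eq_neg.1 (hx.trans h2.symm) with h4 | h4
      · right; change x = _; linarith
      · left; linarith
    · rintro (rfl | rfl)
      · exact ⟨by linarith, by linear_combination h2⟩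
      · exact ⟨by linarith, by linear_combination h2⟩
  · rw [Set.eq_empty_of_forall_notMem (s := {x : ℝ | x < 0 ∧ (x - m) ^ 2 = D}), Set.ncard_empty]
    rintro x ⟨h4, h5⟩
    nlinarith

theorem mem_of (a : Fin 4 → ℝ) (r s b c x y z m D : ℝ) (h0 : a 0 ≠ 0 ∧ a 1 ≠ 0 ∧ a 2 ≠ 0 ∧ a 3 ≠ 0)
    (hr : 0 < r) (hrs : r < s) (hbc : b ^ 2 < 4 * c) (hx : 0 < x) (hxy : x < y) (hyz : y < z)
    (hD : 0 < D) (hm : 0 < m) (h : D < m ^ 2)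
    (e0 : ∀ t, t ^ 4 + a 3 * t ^ 3 + a 2 * t ^ 2 + a 1 * t + a 0 =
      (t - r) * (t - s) * (t ^ 2 + b * t + c))
    (e1 : ∀ t, 4 * t ^ 3 + 3 * a 3 * t ^ 2 + 2 * a 2 * t + a 1 = 4 * ((t - x) * (t - y) * (t - z)))
    (e2 : ∀ t, 12 * t ^ 2 + 6 * a 3 * t + 2 * a 2 = 12 * ((t - m) ^ 2 - D))
    (e3 : ∀ t, 24 * t + 6 * a 3 = 24 * (t - m))
    (n1 : ∀ t, t = r ∨ t = s → t ≠ x ∧ t ≠ y ∧ t ≠ z)
    (n2 : ∀ t, t = x ∨ t = y ∨ t = z → (t - m) ^ 2 ≠ D) :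
    a ∈ R4 4 ![(2, 0), (3, 0), (2, 0), (1, 0)] := by
  have f0 : ∀ t, t ^ 4 + a 3 * t ^ 3 + a 2 * t ^ 2 + a 1 * t + a 0 = 0 ↔ t = r ∨ t = s := by
    intro t
    have h1 : t ^ 2 + b * t + c ≠ 0 := by nlinarith [sq_nonneg (2 * t + b)]
    simp [e0, h1, sub_eq_zero]
  have f1 : ∀ t, 4 * t ^ 3 + 3 * a 3 * t ^ 2 + 2 * a 2 * t + a 1 = 0 ↔
      t = x ∨ t = y ∨ t = z := by
    intro t
    simp [e1, sub_eq_zero, or_assoc]
  have f2 : ∀ t, 12 * t ^ 2 + 6 * a 3 * t + 2 * a 2 = 0 ↔ (t - m) ^ 2 = D := by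
    intro t
    simp [e2, sub_eq_zero]
  have f3 : ∀ t, 24 * t + 6 * a 3 = 0 ↔ t = m := by
    intro t
    simp [e3, sub_eq_zero]
  rw [mem_iff]
  simp only [ne_eq, f0, f1, f2, f3]
  refine ⟨h0, ⟨?_, ?_, ?_⟩, ⟨?_, ?_, ?_⟩, ⟨?_, quad m D hD hm h⟩, ?_, ?_, ?_⟩
  · intro t ht
    refine ⟨by rcases ht with rfl | rfl <;> linarith, ?_⟩
    have := n1 t ht
    tauto
  · refine Set.ncard_eq_two.2 ⟨r, s, hrs.ne, ?_⟩
    ext t
    exact ⟨fun ht => ht.2, fun ht => ⟨by rcases ht with rfl | rfl <;> linarith, ht⟩⟩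
  · rw [Set.eq_empty_of_forall_notMem (s := {t : ℝ | t < 0 ∧ (t = r ∨ t = s)}), Set.ncard_empty]
    rintro t ⟨h1, rfl | rfl⟩ <;> linarith
  · intro t ht
    exact ⟨by rcases ht with rfl | rfl | rfl <;> linarith, n2 t ht⟩
  · refine Set.ncard_eq_three.2 ⟨x, y, z, hxy.ne, (hxy.trans hyz).ne, hyz.ne, ?_⟩
    ext t
    exact ⟨fun ht => ht.2, fun ht => ⟨by rcases ht with rfl | rfl | rfl <;> linarith, ht⟩⟩
  · rw [Set.eq_empty_of_forall_notMem (s := {t : ℝ | t < 0 ∧ (t = x ∨ t = y ∨ t = z)}),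
      Set.ncard_empty]
    rintro t ⟨h1, rfl | rfl | rfl⟩ <;> linarith
  · intro t ht
    constructor
    · rintro rfl
      nlinarith
    · rintro rfl
      nlinarith
  · rintro t rfl
    exact hm.ne'
  · refine Set.ncard_eq_one.2 ⟨m, ?_⟩
    ext t
    exact ⟨fun ht => ht.2, fun ht => ⟨by rw [ht]; exact hm, ht⟩⟩
  · rw [Set.eq_empty_of_forall_notMem (s := {t : ℝ | t < 0 ∧ t = m}), Set.ncard_empty]
    rintro t ⟨h1, rfl⟩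
    linarith

theorem result : (R4 4 ![(2, 0), (3, 0), (2, 0), (1, 0)]).Nonempty ∧
    ¬ IsPreconnected (R4 4 ![(2, 0), (3, 0), (2, 0), (1, 0)]) := by
  have hW : ![55, -96, 52, -12] ∈ R4 4 ![(2, 0), (3, 0), (2, 0), (1, 0)] := by
    refine mem_of _ 1 5 (-6) 11 2 3 4 3 (1 / 3) (by simp) (by norm_num) (by norm_num) (by norm_num)
      (by norm_num) (by norm_num) (by norm_num) (by norm_num) (by norm_num) (by norm_num)
      (fun t => by simp; ring) (fun t => by simp; ring) (fun t => by simp; ring)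
      (fun t => by simp; ring) ?_ ?_
    · rintro t (rfl | rfl) <;> norm_num
    · rintro t (rfl | rfl | rfl) <;> norm_num
  have hU : ![420, -44, 57, -18] ∈ R4 4 ![(2, 0), (3, 0), (2, 0), (1, 0)] := by
    refine mem_of _ 5 14 1 6 (1 / 2) 2 11 (9 / 2) (43 / 4) (by simp) (by norm_num) (by norm_num)
      (by norm_num)
      (by norm_num) (by norm_num) (by norm_num) (by norm_num) (by norm_num) (by norm_num)
      (fun t => by simp; ring) (fun t => by simp; ring) (fun t => by simp; ring)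
      (fun t => by simp; ring) ?_ ?_
    · rintro t (rfl | rfl) <;> norm_num
    · rintro t (rfl | rfl | rfl) <;> norm_num
  refine ⟨⟨_, hW⟩, fun h => ?_⟩
  have hc : Continuous G := by unfold G; fun_prop
  have h1 : G ![55, -96, 52, -12] ≤ 0 := by
    have h2 : 0 ≤ √(((-12 : ℝ)) ^ 2 / 16 - 52 / 6) ^ 4 := by positivity
    change ((- -12 / 4) ^ 4 + -12 * (- -12 / 4) ^ 3 + 52 * (- -12 / 4) ^ 2 + -96 * (- -12 / 4) + 55)
      - 5 * √(((-12 : ℝ)) ^ 2 / 16 - 52 / 6) ^ 4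
      + |4 * (- -12 / 4) ^ 3 + 3 * -12 * (- -12 / 4) ^ 2 + 2 * 52 * (- -12 / 4) + -96| *
        √(((-12 : ℝ)) ^ 2 / 16 - 52 / 6) ≤ 0
    rw [show (4 * (- -12 / 4) ^ 3 + 3 * -12 * (- -12 / 4) ^ 2 + 2 * 52 * (- -12 / 4) + -96 : ℝ) = 0
      by norm_num, abs_zero]
    linarith
  have h2 : 0 ≤ G ![420, -44, 57, -18] := by
    change 0 ≤ ((- -18 / 4) ^ 4 + -18 * (- -18 / 4) ^ 3 + 57 * (- -18 / 4) ^ 2 + -44 * (- -18 / 4)
      + 420) - 5 * √(((-18 : ℝ)) ^ 2 / 16 - 57 / 6) ^ 4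
      + |4 * (- -18 / 4) ^ 3 + 3 * -18 * (- -18 / 4) ^ 2 + 2 * 57 * (- -18 / 4) + -44| *
        √(((-18 : ℝ)) ^ 2 / 16 - 57 / 6)
    rw [show (4 * (- -18 / 4) ^ 3 + 3 * -18 * (- -18 / 4) ^ 2 + 2 * 57 * (- -18 / 4) + -44 : ℝ)
      = -260 by norm_num, show ((-18 : ℝ)) ^ 2 / 16 - 57 / 6 = 43 / 4 by norm_num]
    have h3 : √(43 / 4 : ℝ) ^ 4 = (43 / 4) ^ 2 := by
      rw [show 4 = 2 * 2 from rfl, pow_mul, Real.sq_sqrt (by norm_num)]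
    have h4 : (3 : ℝ) ≤ √(43 / 4) := Real.le_sqrt_of_sq_le (by norm_num)
    rw [h3, abs_of_neg (by norm_num)]
    linarith
  obtain ⟨a, ha, h0⟩ := h.intermediate_value hW hU hc.continuousOn (show (0 : ℝ) ∈ _ from ⟨h1, h2⟩)
  exact G_ne a ha h0

end Pool.Agent.Results.MP_5207c4_ag.Wells
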